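import Pool.Agent.helper19.MX.SpecD

/-!
# Row mx:SBF: the subfield
-/

set_option autoImplicit false

namespace MX

open Pool.Agent.helper53.AU AN
open scoped Classical Topology IntermediateField
open Finset (range powerset Icc)

/-- **Row SBF**. -/
theorem SBF : SBF_stmt := by
  intro k F _ _ _ x r y f h
  let S : Set F := {x} ∪ y '' {j | j < r}
  let E : IntermediateField k F := IntermediateField.adjoin k S
  have hxE : x ∈ E := IntermediateField.subset_adjoin k S (Or.inl rfl)
  have hyE : ∀ j, j < r → y j ∈ E := fun j hj =>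
    IntermediateField.subset_adjoin k S (Or.inr ⟨j, hj, rfl⟩)
  let x' : E := ⟨x, hxE⟩
  let y' : ℕ → E := fun j => if hj : j < r then ⟨y j, hyE j hj⟩ else 0
  have hy' : ∀ j, j < r → (y' j : F) = y j := by
    intro j hj
    show ((if hj : j < r then (⟨y j, hyE j hj⟩ : E) else 0 : E) : F) = y j
    rw [dif_pos hj]
  have himg : (Subtype.val : E → F) '' ({x'} ∪ y' '' {j | j < r}) = S := by
    rw [Set.image_union, Set.image_singleton, Set.image_image]
    show {x} ∪ _ = {x} ∪ _
    congr 1
    exact Set.image_congr fun j hj => hy' j hj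
  refine ⟨E, x', y', rfl, hy', rfl, ⟨?_, ?_, ?_, ?_⟩, ?_⟩
  · have h1 : Transcendental k (algebraMap E F x') := h.tr
    exact (transcendental_algebraMap_iff (algebraMap E F).injective).mp h1
  · apply IntermediateField.lift_injective E
    rw [IntermediateField.lift_adjoin, IntermediateField.lift_top]
    exact congrArg (IntermediateField.adjoin k) himg
  · intro j hj
    apply Subtype.ext
    have h1 := h.eq j (Nat.lt_succ_of_lt hj)
    have h2 : ((Polynomial.aeval x' (f j) : E) : F) = Polynomial.aeval x (f j) :=
      (Polynomial.aeval_algHom_apply E.val x' (f j)).symm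
    rw [h2, ← h1, ← hy' j hj]
    rfl
  · intro T hT hne
    exact h.odd T (hT.trans (Finset.range_mono (Nat.le_succ r))) hne
  · have h1 : (IntermediateField.adjoin E ({y r} : Set F)).restrictScalars k = ⊤ := by
      have h2 := IntermediateField.adjoin_adjoin_left k S ({y r} : Set F)
      rw [h2, ← h.gen]
      congr 1
      show ({x} ∪ y '' {j | j < r}) ∪ {y r} = {x} ∪ y '' {j | j < r + 1}
      rw [Set.union_assoc]
      congr 1
      ext z
      constructor
      · rintro (⟨j, hj, rfl⟩ | hz)
        · exact ⟨j, Nat.lt_succ_of_lt hj, rfl⟩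
        · exact ⟨r, Nat.lt_succ_self r, hz.symm⟩
      · rintro ⟨j, hj, rfl⟩
        rcases Nat.lt_succ_iff_lt_or_eq.mp hj with hj | hj
        · exact Or.inl ⟨j, hj, rfl⟩
        · exact Or.inr (by rw [hj]; rfl)
    exact (IntermediateField.restrictScalars_eq_top_iff).mp h1

end MX
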